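import Mathlib

namespace Pool.Agent.Results.MP_7f09f8_gt.LinEmbLindelof

open Set Topology TopologicalSpace

universe u v

/-- The topology of pointwise convergence on the linear space of all continuous real functions on
`X`, i.e. the topology of `C_p(X)`, induced from the product topology on `X → ℝ`. -/
def pointwiseTopology (X : Type u) [TopologicalSpace X] : TopologicalSpace C(X, ℝ) :=
  TopologicalSpace.induced (fun f : C(X, ℝ) => (f : X → ℝ)) inferInstance

/-- `C_p(Y)` linearly embeds in `C_p(X)`: there is a linear map which is a topological embedding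
for the topologies of pointwise convergence. -/
def CpLinearlyEmbeds (Y : Type v) (X : Type u) [TopologicalSpace Y] [TopologicalSpace X] : Prop :=
  ∃ T : C(Y, ℝ) →ₗ[ℝ] C(X, ℝ),
    @Topology.IsEmbedding C(Y, ℝ) C(X, ℝ) (pointwiseTopology Y) (pointwiseTopology X) T

section aux

variable {X : Type u} {Y : Type v} [TopologicalSpace X] [TopologicalSpace Y]

/-- evaluation at a point -/
def ev (v : Y) : C(Y, ℝ) →ₗ[ℝ] ℝ where
  toFun f := f v
  map_add' _ _ := rfl
  map_smul' _ _ := rfl

lemma ev_apply (v : Y) (f : C(Y, ℝ)) : ev v f = f v := rfl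

lemma topology_eq : pointwiseTopology Y = ⨅ v : Y, induced (ev v) inferInstance := by
  show induced _ (⨅ v : Y, _) = _
  rw [induced_iInf]
  refine iInf_congr fun v => ?_
  rw [induced_compose]
  rfl

lemma continuous_ev (v : Y) : Continuous[pointwiseTopology Y, inferInstance] (ev v) := by
  rw [topology_eq, continuous_iff_le_induced]
  exact iInf_le _ v

lemma exists_measure (T : C(Y, ℝ) →ₗ[ℝ] C(X, ℝ))
    (hT : Continuous[pointwiseTopology Y, pointwiseTopology X] T) (x : X) :
    ∃ μ : Y →₀ ℝ, ∀ f : C(Y, ℝ), T f x = μ.sum fun v c => c * f v := by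
  have h1 : Continuous[⨅ v : Y, induced (ev v) inferInstance, inferInstance]
      ((ev x).comp T : C(Y, ℝ) →ₗ[ℝ] ℝ) := by
    rw [← topology_eq]
    exact @Continuous.comp _ _ _ (pointwiseTopology Y) (pointwiseTopology X) _ _ _
      (continuous_ev x) hT
  have h2 := (LinearMap.mem_span_iff_continuous (f := fun v : Y => ev v)
    ((ev x).comp T : C(Y, ℝ) →ₗ[ℝ] ℝ)).2 h1
  obtain ⟨μ, hμ⟩ := Finsupp.mem_span_range_iff_exists_finsupp.1 h2
  refine ⟨μ, fun f => ?_⟩
  have h3 := congrArg (fun L : C(Y, ℝ) →ₗ[ℝ] ℝ => L f) hμ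
  simp only [Finsupp.sum, LinearMap.sum_apply, LinearMap.smul_apply, ev_apply, smul_eq_mul,
    LinearMap.comp_apply] at h3
  rw [← h3]
  rfl

lemma exists_coeff (T : C(Y, ℝ) →ₗ[ℝ] C(X, ℝ))
    (hT : @IsInducing _ _ (pointwiseTopology Y) (pointwiseTopology X) T) (w : Y) :
    ∃ c : X →₀ ℝ, ∀ f : C(Y, ℝ), f w = c.sum fun x a => a * T f x := by
  have h0 : pointwiseTopology Y =
      ⨅ x : X, induced ((ev x).comp T : C(Y, ℝ) →ₗ[ℝ] ℝ) inferInstance := by
    have h1 : pointwiseTopology Y = induced T (pointwiseTopology X) :=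
      @IsInducing.eq_induced _ _ (pointwiseTopology Y) (pointwiseTopology X) T hT
    rw [h1, topology_eq (Y := X), induced_iInf]
    refine iInf_congr fun x => ?_
    rw [induced_compose]
    rfl
  have h1 : Continuous[⨅ x : X, induced ((ev x).comp T : C(Y, ℝ) →ₗ[ℝ] ℝ) inferInstance,
      inferInstance] (ev w : C(Y, ℝ) →ₗ[ℝ] ℝ) := by
    rw [← h0]
    exact continuous_ev w
  have h2 := (LinearMap.mem_span_iff_continuous
    (f := fun x : X => ((ev x).comp T : C(Y, ℝ) →ₗ[ℝ] ℝ)) (ev w : C(Y, ℝ) →ₗ[ℝ] ℝ)).2 h1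
  obtain ⟨c, hc⟩ := Finsupp.mem_span_range_iff_exists_finsupp.1 h2
  refine ⟨c, fun f => ?_⟩
  have h3 := congrArg (fun L : C(Y, ℝ) →ₗ[ℝ] ℝ => L f) hc
  simp only [Finsupp.sum, LinearMap.sum_apply, LinearMap.smul_apply, ev_apply, smul_eq_mul,
    LinearMap.comp_apply] at h3
  rw [← h3]
  rfl

/-- closing off: for `Q` assigning a countable set to every finite set there is a countable set
closed under `Q`. -/
lemma closing_off {Y : Type v} (Q : Finset Y → Set Y) (hQ : ∀ s, (Q s).Countable) :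
    ∃ P : Set Y, P.Countable ∧ ∀ s : Finset Y, (↑s : Set Y) ⊆ P → Q s ⊆ P := by
  classical
  let P : ℕ → Set Y := fun n => Nat.rec (motive := fun _ => Set Y) ∅
    (fun _ P => P ∪ ⋃ s ∈ {s : Finset Y | (↑s : Set Y) ⊆ P}, Q s) n
  have hP : ∀ n, P (n + 1) = P n ∪ ⋃ s ∈ {s : Finset Y | (↑s : Set Y) ⊆ P n}, Q s := fun n => rfl
  have hmono : Monotone P := monotone_nat_of_le_succ fun n => by
    rw [hP]; exact subset_union_left
  have hc : ∀ n, (P n).Countable := by
    intro n
    induction n with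
    | zero => exact countable_empty
    | succ n ih =>
      rw [hP]
      refine ih.union (Set.Countable.biUnion ?_ fun s _ => hQ s)
      have h1 := Set.countable_ofPred_finite_subset ih
      refine Set.MapsTo.countable_of_injOn (f := fun s : Finset Y => (↑s : Set Y))
        (t := {t : Set Y | t.Finite ∧ t ⊆ P n}) ?_ ?_ h1
      · intro s hs
        exact ⟨s.finite_toSet, hs⟩
      · intro s _ t _ h
        exact Finset.coe_injective h
  refine ⟨⋃ n, P n, countable_iUnion hc, fun s hs => ?_⟩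
  have h2 : ∃ n, (↑s : Set Y) ⊆ P n := by
    have h3 : ∀ y : Y, ∃ n, y ∈ s → y ∈ P n := by
      intro y
      by_cases hy : y ∈ s
      · obtain ⟨n, hn⟩ := mem_iUnion.1 (hs hy)
        exact ⟨n, fun _ => hn⟩
      · exact ⟨0, fun h => absurd h hy⟩
    choose N hN using h3
    exact ⟨s.sup N, fun y hy => hmono (Finset.le_sup (f := N) hy) (hN y hy)⟩
  obtain ⟨n, hn⟩ := h2
  intro y hy
  refine mem_iUnion.2 ⟨n + 1, ?_⟩
  rw [hP]
  exact Or.inr (mem_iUnion₂.2 ⟨s, hn, hy⟩)

end aux

/-- If `X` is Lindelöf and `C_p(Y)` linearly embeds in `C_p(X)`, then `Y` is Lindelöf. -/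
theorem result (X : Type u) (Y : Type v) [TopologicalSpace X] [TopologicalSpace Y]
    [T35Space X] [T35Space Y] [LindelofSpace X] (h : CpLinearlyEmbeds Y X) :
    LindelofSpace Y := by
  classical
  obtain ⟨T, hT⟩ := h
  choose μ hμ using exists_measure T (@IsEmbedding.continuous _ _ T (pointwiseTopology Y) (pointwiseTopology X) hT)
  choose c hc using exists_coeff T (@IsEmbedding.toIsInducing _ _ (pointwiseTopology Y) (pointwiseTopology X) T hT)
  rw [← isLindelof_univ_iff]
  refine isLindelof_of_countable_subcover ?_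
  intro ι U hU hcov
  -- choose members and bump functions
  have h1 : ∀ y : Y, ∃ i, y ∈ U i := fun y => mem_iUnion.1 (hcov (mem_univ y))
  choose i hi using h1
  have h2 : ∀ y : Y, ∃ f : Y → ℝ, Continuous f ∧ f y = 1 ∧ (∀ z, 0 ≤ f z) ∧
      ∀ z, z ∉ U (i y) → f z = 0 := by
    intro y
    obtain ⟨f, hf, hf0, hf1⟩ := CompletelyRegularSpace.completely_regular y (U (i y))ᶜ
      (hU _).isClosed_compl (by simpa using hi y)
    refine ⟨fun z => 1 - (f z : ℝ), by fun_prop, by simp [hf0], fun z => ?_, fun z hz => ?_⟩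
    · have := (f z).2.2
      linarith
    · have := hf1 hz
      simp [this]
  choose F hFc hF1 hF0 hFU using h2
  -- the sums
  let S : Finset Y → Y → ℝ := fun s z => ∑ y ∈ s, F y z
  have hSc : ∀ s, Continuous (S s) := fun s => continuous_finsetSum s fun y _ => hFc y
  have hS0 : ∀ s z, 0 ≤ S s z := fun s z => Finset.sum_nonneg fun y _ => hF0 y z
  have hS1 : ∀ (s : Finset Y), ∀ z ∈ s, 1 ≤ S s z := by
    intro s z hz
    calc (1 : ℝ) = F z z := (hF1 z).symm
      _ ≤ S s z := Finset.single_le_sum (f := fun y => F y z) (fun y _ => hF0 y z) hz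
  -- the functions g
  let g : Finset Y → ℕ → X → C(Y, ℝ) := fun s m x' =>
    ⟨fun z => 1 - min 1 (m * S s z + S (μ x').support z),
      continuous_const.sub (continuous_const.min
        ((continuous_const.mul (hSc s)).add (hSc _)))⟩
  -- integrals
  have hint : ∀ (f : C(Y, ℝ)) (x : X), (T f : X → ℝ) x = (μ x).sum fun v c => c * (f : Y → ℝ) v :=
    fun f x => hμ x f
  have hzero : ∀ s m x', (T (g s m x') : X → ℝ) x' = 0 := by
    intro s m x'
    rw [hint]
    refine Finset.sum_eq_zero fun v hv => ?_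
    have h3 : (1 : ℝ) ≤ m * S s v + S (μ x').support v := by
      have := hS1 _ v hv
      have h4 : 0 ≤ (m : ℝ) * S s v := mul_nonneg (Nat.cast_nonneg m) (hS0 s v)
      linarith
    show (μ x') v * (1 - min 1 (m * S s v + S (μ x').support v)) = 0
    rw [min_eq_left h3]
    ring
  -- Lindelöf property of X
  have hcovX : ∀ (s : Finset Y) (m k : ℕ), ∃ X₀ : Set X, X₀.Countable ∧
      ∀ x : X, ∃ x' ∈ X₀, |(T (g s m x') : X → ℝ) x| < 1 / (k + 1) := by
    intro s m k
    have hk : (0 : ℝ) < 1 / (k + 1) := by positivity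
    obtain ⟨X₀, hX₀, hX₀'⟩ := isLindelof_univ.elim_countable_subcover
      (fun x' : X => {x : X | |(T (g s m x') : X → ℝ) x| < 1 / (k + 1)})
      (fun x' => isOpen_lt ((T (g s m x')).continuous.abs) continuous_const)
      (fun x _ => mem_iUnion.2 ⟨x, by
        show |(T (g s m x) : X → ℝ) x| < 1 / (k + 1)
        rw [hzero, abs_zero]; exact hk⟩)
    refine ⟨X₀, hX₀, fun x => ?_⟩
    obtain ⟨x', hx', hx⟩ := mem_iUnion₂.1 (hX₀' (mem_univ x))
    exact ⟨x', hx', hx⟩
  choose X₀ hX₀c hX₀ using hcovX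
  let Q : Finset Y → Set Y := fun s => ⋃ m : ℕ, ⋃ k : ℕ, ⋃ x' ∈ X₀ s m k, ↑(μ x').support
  obtain ⟨P, hPc, hP⟩ := closing_off Q (fun s => countable_iUnion fun m => countable_iUnion fun k =>
    (hX₀c s m k).biUnion fun x' _ => (μ x').support.countable_toSet)
  let V : Set Y := {z | ∃ p ∈ P, F p z ≠ 0}
  -- for a finite set `A` there are `s` and `m`
  have hfin : ∀ A : Finset Y, ∃ s : Finset Y, (↑s : Set Y) ⊆ P ∧ ∃ m : ℕ, ∀ z ∈ A, z ∈ V →
      1 ≤ m * S s z := by
    intro A
    have h3 : ∀ z : Y, ∃ p : Y, z ∈ V → p ∈ P ∧ F p z ≠ 0 := by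
      intro z
      by_cases hz : z ∈ V
      · obtain ⟨p, hp, hpz⟩ := hz
        exact ⟨p, fun _ => ⟨hp, hpz⟩⟩
      · exact ⟨z, fun h => absurd h hz⟩
    choose p hp using h3
    let s : Finset Y := (A.filter (fun z => z ∈ V)).image p
    have hs : (↑s : Set Y) ⊆ P := by
      intro y hy
      obtain ⟨z, hz, rfl⟩ := Finset.mem_image.1 (Finset.mem_coe.1 hy)
      exact (hp z (Finset.mem_filter.1 hz).2).1
    have hpos : ∀ z ∈ A, z ∈ V → 0 < S s z := by
      intro z hz hzV
      have h4 : 0 < F (p z) z := lt_of_le_of_ne (hF0 _ _) (hp z hzV).2.symm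
      refine h4.trans_le (Finset.single_le_sum (f := fun y => F y z) (fun y _ => hF0 y z) ?_)
      exact Finset.mem_image.2 ⟨z, Finset.mem_filter.2 ⟨hz, hzV⟩, rfl⟩
    have h5 : ∀ z : Y, ∃ m : ℕ, z ∈ A → z ∈ V → 1 ≤ m * S s z := by
      intro z
      by_cases hz : z ∈ A ∧ z ∈ V
      · obtain ⟨m, hm⟩ := exists_nat_ge (1 / S s z)
        refine ⟨m, fun _ _ => ?_⟩
        rwa [div_le_iff₀ (hpos z hz.1 hz.2)] at hm
      · exact ⟨0, fun h h' => absurd ⟨h, h'⟩ hz⟩
    choose m hm using h5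
    refine ⟨s, hs, A.sup m, fun z hz hzV => (hm z hz hzV).trans ?_⟩
    have h6 : (m z : ℝ) ≤ (A.sup m : ℕ) := by exact_mod_cast Finset.le_sup (f := m) hz
    exact mul_le_mul_of_nonneg_right h6 (hS0 s z)
  have hSV : ∀ s : Finset Y, (↑s : Set Y) ⊆ P → ∀ z, z ∉ V → S s z = 0 := by
    intro s hs z hz
    refine Finset.sum_eq_zero fun y hy => ?_
    by_contra h
    exact hz ⟨y, hs hy, h⟩
  -- the mass outside V is zero
  have hmass : ∀ x : X, ((μ x).sum fun v c => if v ∈ V then 0 else c) = 0 := by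
    intro x
    obtain ⟨s, hs, m, hm⟩ := hfin (μ x).support
    have h3 : ∀ k : ℕ, |(μ x).sum fun v c => if v ∈ V then (0 : ℝ) else c| < 1 / (k + 1) := by
      intro k
      obtain ⟨x', hx', hlt⟩ := hX₀ s m k x
      have hsupp : (↑(μ x').support : Set Y) ⊆ P := by
        intro y hy
        refine hP s hs ?_
        exact mem_iUnion.2 ⟨m, mem_iUnion.2 ⟨k, mem_iUnion₂.2 ⟨x', hx', hy⟩⟩⟩
      rw [hint] at hlt
      have h4 : ((μ x).sum fun v c => c * ((g s m x' : C(Y, ℝ)) : Y → ℝ) v) =
          (μ x).sum fun v c => if v ∈ V then (0 : ℝ) else c := by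
        refine Finsupp.sum_congr fun v hv => ?_
        show (μ x) v * (1 - min 1 (m * S s v + S (μ x').support v)) = _
        by_cases hvV : v ∈ V
        · rw [if_pos hvV, min_eq_left]
          · ring
          · have := hm v hv hvV
            have h5 := hS0 (μ x').support v
            linarith
        · rw [if_neg hvV, hSV s hs v hvV, hSV _ hsupp v hvV]
          simp
      rwa [h4] at hlt
    have h7 : |(μ x).sum fun v c => if v ∈ V then (0 : ℝ) else c| = 0 := by
      by_contra hne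
      have hpos := lt_of_le_of_ne (abs_nonneg _) (Ne.symm hne)
      obtain ⟨k, hk⟩ := exists_nat_one_div_lt hpos
      exact absurd (h3 k) (not_lt.2 hk.le)
    exact abs_eq_zero.1 h7
  -- V is everything
  have hVall : ∀ w : Y, w ∈ V := by
    intro w
    by_contra hw
    let A : Finset Y := (c w).support.biUnion fun x => (μ x).support
    obtain ⟨s, hs, m, hm⟩ := hfin A
    let f : C(Y, ℝ) := ⟨fun z => 1 - min 1 (m * S s z),
      continuous_const.sub (continuous_const.min (continuous_const.mul (hSc s)))⟩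
    have h3 := hc w f
    have h4 : (f : Y → ℝ) w = 1 := by
      show 1 - min 1 (m * S s w) = 1
      rw [hSV s hs w hw]
      simp
    have h5 : ((c w).sum fun x a => a * (T f : X → ℝ) x) = 0 := by
      refine Finset.sum_eq_zero fun x hx => ?_
      have h6 : (T f : X → ℝ) x = 0 := by
        rw [hint, ← hmass x]
        refine Finsupp.sum_congr fun v hv => ?_
        show (μ x) v * (1 - min 1 (m * S s v)) = _
        have hvA : v ∈ A := Finset.mem_biUnion.2 ⟨x, hx, hv⟩
        by_cases hvV : v ∈ V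
        · rw [if_pos hvV, min_eq_left (hm v hvA hvV)]
          ring
        · rw [if_neg hvV, hSV s hs v hvV]
          simp
      show (c w) x * (T f : X → ℝ) x = 0
      rw [h6, mul_zero]
    rw [h4, h5] at h3
    exact one_ne_zero h3
  refine ⟨i '' P, hPc.image i, fun z _ => ?_⟩
  obtain ⟨p, hp, hpz⟩ := hVall z
  refine mem_iUnion₂.2 ⟨i p, ⟨p, hp, rfl⟩, ?_⟩
  by_contra h
  exact hpz (hFU p z h)

end Pool.Agent.Results.MP_7f09f8_gt.LinEmbLindelof
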